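import Pool.Agent.H65.NU.HistN

set_option autoImplicit false

/-!
# A Turing complete total search problem gives a many-one complete one

From a total search problem `T` we build the total search problem `hist T` whose instances are
`1^K 0 1^s 0 1^i 0 x` and whose solutions are the possible histories of the machine number `i`,
with clock `K`, on the input `x`, when it asks `s` queries to `T` (or stops before that, because
the clock runs out).  Every problem that is Turing reducible to `T` is many-one reducible to
`hist T`.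
-/

namespace Pool.Agent.H91.EL

open Pool.Agent.H88.RO Pool.Agent.H88.RO.Tr Pool.Agent.H65.TS Pool.Agent.H65.NU

variable {O : List Bool → Bool}

/-- the solutions of a total search problem are recognised by a polynomial time function
on trees -/
theorem exists_test (T : TFNP O) : ∃ TS : Tr → Tr → Tr → Tr, FP3 O TS ∧
    ∀ (θ : Tr) (q y : List Bool), TS θ (enc q) (enc y) ≠ leaf ↔ T.IsSol q y := by
  obtain ⟨i, k, n, h⟩ := exists_index T
  obtain ⟨Pk, hk1, hk2⟩ := exists_polyT k
  obtain ⟨Pn, hn1, hn2⟩ := exists_polyT n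
  refine ⟨fun _ q y => usT O (num i) (Pk q) (Pn q) q y, ?_, fun θ q y => ?_⟩
  · intro F G H _ hG hH
    exact FP.usT' (FP.const' _) (hk2 _ _ hG) (hn2 _ _ hG) hG hH
  · show usT O (num i) (Pk (enc q)) (Pn (enc q)) (enc q) (enc y) ≠ leaf ↔ _
    rw [hk1, hn1, usT_spec, len_num, len_num, len_num, len_enc]
    exact h q y

/-- the history coded by the certificate `c` -/
def hstT (TS : Tr → Tr → Tr → Tr) (O : List Bool → Bool) (cf K X c : Tr) : Tr :=
  fst (snd (snd ((cN TS O)^[len c]
    (node (node leaf (node cf (node K X))) (node tt (node leaf c))))))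

theorem FP.hstT' {TS : Tr → Tr → Tr → Tr} (hTS : FP3 O TS) {cf K X c : Tr → Tr}
    (hcf : FP O cf) (hK : FP O K) (hX : FP O X) (hc : FP O c) :
    FP O (fun v => hstT TS O (cf v) (K v) (X v) (c v)) := by
  have h1 : FP O (fun v => (cN TS O)^[len (c v)]
      (node (node leaf (node (cf v) (node (K v) (X v)))) (node tt (node leaf (c v))))) := by
    refine FP.iterate' (FP.cN' hTS) hc (FP.node' (FP.node' FP.leaf' (FP.node' hcf
      (FP.node' hK hX))) (FP.node' (FP.const' tt) (FP.node' FP.leaf' hc)))
      ⟨7 * Polynomial.X + 10, fun n x i _ => ?_⟩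
    simp only [Polynomial.eval_add, Polynomial.eval_mul, Polynomial.eval_ofNat,
      Polynomial.eval_X]
    rcases cN_bound (O := O) TS x i with h | ⟨ok, h, c, h1, h2, h3⟩
    · rw [h]; omega
    · rw [h1]
      simp only [size]
      have := size_fst_le x
      omega
  exact FP.fst' (FP.snd' (FP.snd' h1))

/-- the test of the certificate `c` for the machine `cf` with clock `K` and `S` queries -/
def chT (TS : Tr → Tr → Tr → Tr) (O : List Bool → Bool) (cf K S X c : Tr) : Tr :=
  bN TS (fun _ _ _ => leaf) O leaf cf leaf K S X leaf c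

theorem FP.chT' {TS : Tr → Tr → Tr → Tr} (hTS : FP3 O TS) {cf K S X c : Tr → Tr}
    (hcf : FP O cf) (hK : FP O K) (hS : FP O S) (hX : FP O X) (hc : FP O c) :
    FP O (fun v => chT TS O (cf v) (K v) (S v) (X v) (c v)) :=
  FP.bN' hTS (SF' := fun _ _ _ => leaf) (fun _ _ _ => FP.leaf') FP.leaf' hcf FP.leaf' hK hS hX
    FP.leaf' hc

/-- the certificate passes the test only if its history is possible and complete -/
theorem chT_sound {TS : Tr → Tr → Tr → Tr} {T : TFNP O}
    (hTS : ∀ (θ : Tr) (q y : List Bool), TS θ (enc q) (enc y) ≠ leaf ↔ T.IsSol q y)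
    (cf K S : Tr) (x : List Bool) (c : Tr) (h : chT TS O cf K S (enc x) c ≠ leaf) :
    HN O T.IsSol cf (len K) x (hstT TS O cf K (enc x) c) ∧
      Fin O cf leaf (len K) (len S) x (fun _ => False) (hstT TS O cf K (enc x) c) := by
  obtain ⟨ok, hh, c', h1, h2⟩ := cN_sound (O := O) (TS := TS) (CS := T.IsSol) (θ := leaf)
    (K := K) (fun q y _ => hTS leaf q y) cf x c (len c)
  unfold chT bN at h
  unfold hstT
  rw [h1] at h ⊢
  simp only [fst_node, snd_node] at h ⊢
  by_cases h3 : ok = leaf
  · rw [cs_pos _ _ h3] at h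
    exact absurd rfl h
  · rw [cs_neg _ _ h3] at h
    exact ⟨h2 h3, (finT_spec (SF := fun _ _ => leaf) (σ := leaf) (Sol := fun _ => False)
      (fun t => by simp) cf leaf O K S x hh).mp h⟩

/-- there is always a short certificate that passes the test -/
theorem chT_total {TS : Tr → Tr → Tr → Tr} {T : TFNP O}
    (hTS : ∀ (θ : Tr) (q y : List Bool), TS θ (enc q) (enc y) ≠ leaf ↔ T.IsSol q y)
    (cf K S : Tr) (x : List Bool) : ∃ c, size c ≤ len S * (4 * T.p.eval (len K) + 2) + 2 ∧
      chT TS O cf K S (enc x) c ≠ leaf :=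
  bN_complete (O := O) (TS := TS) (SF' := fun _ _ _ => leaf) (CS := T.IsSol) (θ := leaf) (K := K)
    (σ := leaf) (fun q y _ => hTS leaf q y) (P := T.p) (fun _ _ h => h.1)
    (Sol := fun _ => False) (fun t => by simp) cf leaf S x
    (badN_of_no_sol (CS := T.IsSol) (fun q => T.total q) cf leaf (len K) (len S) x (fun _ h => h))

open Classical in
/-- the search problem of the histories of the computations with queries to `T` -/
theorem exists_hist {TS : Tr → Tr → Tr → Tr} (hF : FP3 O TS) {T : TFNP O}
    (hTS : ∀ (θ : Tr) (q y : List Bool), TS θ (enc q) (enc y) ≠ leaf ↔ T.IsSol q y) :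
    ∃ H : TFNP O, ∀ z y, H.IsSol z y →
      chT TS O (mach (zi z)) (num (zK z)) (num (zN z)) (enc (zx z)) (decodeT (enc y)) ≠ leaf := by
  let R : List Bool → List Bool → Bool := fun z y => decide
    (chT TS O (mach (zi z)) (num (zK z)) (num (zN z)) (enc (zx z)) (decodeT (enc y)) ≠ leaf)
  let P : Polynomial ℕ := Polynomial.X * (4 * T.p + 2) + 2
  refine ⟨⟨R, P, ?_, fun z => ?_⟩, fun z y h => ?_⟩
  · refine polyTimeRel_of_FP (F := fun v => chT TS O (machT (ti (fst v))) (tK (fst v))
      (tN (fst v)) (tx (fst v)) (decodeT (snd v))) (FP.chT' hF (FP.machT' (FP.ti' (FP.fst' FP.id')))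
      (FP.tK' (FP.fst' FP.id')) (FP.tN' (FP.fst' FP.id')) (FP.tx' (FP.fst' FP.id'))
      (FP.decodeT' (FP.snd' FP.id'))) (fun x y => ?_)
    simp only [fst_node, snd_node, tK_enc, tN_enc, tx_enc, ti_enc, machT_eq, len_num, R,
      decide_eq_true_eq]
  · obtain ⟨c, h1, h2⟩ := chT_total hTS (mach (zi z)) (num (zK z)) (num (zN z)) (zx z)
    refine ⟨rpn c, ?_, ?_⟩
    · rw [rpn_length]
      simp only [len_num] at h1
      simp only [P, Polynomial.eval_add, Polynomial.eval_mul, Polynomial.eval_ofNat,
        Polynomial.eval_X]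
      have h3 := z_le z
      have h4 : T.p.eval (zK z) ≤ T.p.eval z.length := poly_mono _ (by omega)
      have h5 : zN z * (4 * T.p.eval (zK z) + 2) ≤ z.length * (4 * T.p.eval z.length + 2) :=
        Nat.mul_le_mul (by omega) (by omega)
      omega
    · simp only [R, decide_eq_true_eq]
      rw [decodeT_enc, decode_rpn]
      exact h2
  · have h1 := h.2
    simp only [R, decide_eq_true_eq] at h1
    exact h1

/-- **Every problem that is Turing reducible to `T` is many-one reducible to the problem of the
histories of the computations with queries to `T`.** -/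
theorem reduces_hist (T : TFNP O) : ∃ H : TFNP O, ∀ S : TFNP O, TuringReduces S T →
    S.Reduces H := by
  obtain ⟨TS, hF, hTS⟩ := exists_test T
  obtain ⟨H, hH⟩ := exists_hist hF hTS
  refine ⟨H, fun S hS => ?_⟩
  obtain ⟨cf, cg, r, s, hred⟩ := hS
  have hf := polyTimeFun_ins (O := O) (sval (rpn (code cf))) (rclk cf cg r) s
  obtain ⟨PK, hK1, hK2⟩ := exists_polyT (rclk cf cg r)
  -- the solution computed from the history
  let F : Tr → Tr := fun v => norm (snd (U O (code cg) (node (fst v)
    (hstT TS O (code cf) (PK (fst v)) (fst v) (decodeT (snd v)))) (len (PK (fst v)))))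
  have hFP : FP O F := FP.norm' (FP.snd' (FP.U' (FP.const' _) (FP.node' (FP.fst' FP.id')
    (FP.hstT' hF (FP.const' _) (hK2 _ _ (FP.fst' FP.id')) (FP.fst' FP.id')
      (FP.decodeT' (FP.snd' FP.id')))) (hK2 _ _ (FP.fst' FP.id'))))
  refine ⟨_, fun x y => dec (F (node (enc x) (enc y))), hf,
    polyTimeFun₂_of_FP hFP (fun x y => ?_), fun x y hy => ?_⟩
  · simp only [F, norm_eq, dec_enc]
  · have h1 := hH _ _ hy
    simp only [zi_ins, zK_ins, zN_ins, zx_ins, mach_sval] at h1
    obtain ⟨h2, h3⟩ := chT_sound hTS _ _ _ _ _ h1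
    set h := hstT TS O (code cf) (num ((rclk cf cg r).eval x.length)) (enc x)
      (decodeT (enc y)) with hh
    simp only [len_num] at h2 h3
    have hFx : dec (F (node (enc x) (enc y))) = dec (snd (U O (code cg) (node (enc x) h)
        ((rclk cf cg r).eval x.length))) := by
      simp only [F, norm_eq, dec_enc, fst_node, snd_node]
      rw [hK1, len_enc, len_num]
    show S.IsSol x (dec (F (node (enc x) (enc y))))
    rw [hFx]
    -- the history is a possible history of the reduction
    have runf : ∀ g, Hist T cf x g → len g < s.eval x.length → ∃ q, ∃ t,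
        Eval O cf (node (enc x) g) (enc q) t ∧
        U O (code cf) (node (enc x) g) ((rclk cf cg r).eval x.length) = node leaf (enc q) := by
      intro g hg hl
      obtain ⟨q, t, ht, he⟩ := (hred x g hg).1 hl
      refine ⟨q, t, he, U_eq he ?_⟩
      rw [rclk_eval]
      exact Nat.add_le_add_right (Nat.mul_le_mul (by omega) ht) _
    have key : ∀ g, HN O T.IsSol (code cf) ((rclk cf cg r).eval x.length) x g →
        len g ≤ s.eval x.length → Hist T cf x g := by
      intro g hg
      induction hg with
      | nil => intro _; exact Hist.nil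
      | @cons g y hg hq hy ih =>
        intro hl
        simp only [len] at hl
        have h1 := ih (by omega)
        obtain ⟨q, t, he, hU⟩ := runf g h1 (by omega)
        rw [hU, snd_node, dec_enc] at hy
        exact Hist.cons h1 he hy
    have hlen : len h = s.eval x.length := by
      rcases h3 with ⟨h3, h4⟩ | ⟨h3, _⟩
      · obtain ⟨q, t, he, hU⟩ := runf h (key h h2 h3.le) h3
        rw [hU] at h4
        cases h4
      · exact h3
    obtain ⟨w, t, ht, he, hw⟩ := (hred x h (key h h2 hlen.le)).2 hlen
    have hU : U O (code cg) (node (enc x) h) ((rclk cf cg r).eval x.length) =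
        node leaf (enc w) := by
      refine U_eq he ?_
      rw [rclk_eval]
      exact Nat.add_le_add_right (Nat.mul_le_mul (by omega) ht) _
    rw [hU, snd_node, dec_enc]
    exact hw

/-- **A Turing complete problem gives a complete one.** -/
theorem complete_of_turing {T : TFNP O} (h : ∀ S : TFNP O, TuringReduces S T) :
    ∃ H : TFNP O, H.IsComplete := by
  obtain ⟨H, hH⟩ := reduces_hist T
  exact ⟨H, fun S => hH S (h S)⟩

end Pool.Agent.H91.EL
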